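import Mathlib

/-!
# John's theorem: the distance of an `n`-dimensional normed space to the Euclidean space is `≤ √n`
-/

set_option autoImplicit false

open Module

noncomputable section

namespace Pool.Agent.RHP.H56

/-- the choice of the stretching -/
theorem num {n : ℕ} {ρ : ℝ} (hn : 1 ≤ n) (hρ : (n : ℝ) < ρ) :
    ∃ t : ℝ, 0 < t ∧ t < 1 ∧ 1 < (1 + t * (ρ - 1)) * (1 - t) ^ (n - 1) := by
  have hn' : (1 : ℝ) ≤ n := by exact_mod_cast hn
  have hρ1 : 1 < ρ := by linarith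
  have hden : 0 < ρ * n := by positivity
  refine ⟨(ρ - n) / (ρ * n), by
    apply div_pos _ hden
    linarith, by
    rw [div_lt_one hden]
    nlinarith, ?_⟩
  obtain ⟨t, ht⟩ : ∃ t, t = (ρ - n) / (ρ * n) := ⟨_, rfl⟩
  rw [← ht]
  have ht0 : 0 < t := by
    rw [ht]
    apply div_pos _ hden
    linarith
  have ht1 : t < 1 := by
    rw [ht, div_lt_one hden]
    nlinarith
  have hteq : t * (ρ * n) = ρ - n := by
    rw [ht]
    field_simp
  have hb : 1 - ((n - 1 : ℕ) : ℝ) * t ≤ (1 - t) ^ (n - 1) := by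
    have h := one_add_mul_le_pow (a := -t) (by linarith) (n - 1)
    have e1 : 1 + ((n - 1 : ℕ) : ℝ) * -t = 1 - ((n - 1 : ℕ) : ℝ) * t := by ring
    have e2 : 1 + -t = 1 - t := by ring
    rw [e1, e2] at h
    exact h
  have hc : ((n - 1 : ℕ) : ℝ) = n - 1 := by
    rw [Nat.cast_sub hn, Nat.cast_one]
  rw [hc] at hb
  have h0 : 0 < 1 + t * (ρ - 1) := by nlinarith
  have h2 : (1 + t * (ρ - 1)) * (1 - (n - 1) * t) ≤ (1 + t * (ρ - 1)) * (1 - t) ^ (n - 1) :=
    mul_le_mul_of_nonneg_left hb h0.le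
  have h3 : 1 < (1 + t * (ρ - 1)) * (1 - (n - 1) * t) := by
    have e : (1 + t * (ρ - 1)) * (1 - (n - 1) * t) =
      1 + t * ((ρ - n) - t * ((ρ - 1) * (n - 1))) := by ring
    rw [e]
    have h4 : t * ((ρ - 1) * (n - 1)) < ρ - n := by
      rw [← hteq]
      apply mul_lt_mul_of_pos_left _ ht0
      nlinarith
    have : 0 < t * ((ρ - n) - t * ((ρ - 1) * (n - 1))) := mul_pos ht0 (by linarith)
    linarith
  linarith

variable {E : Type} [NormedAddCommGroup E] [InnerProductSpace ℝ E] [FiniteDimensional ℝ E]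

/-- stretching by `a` in the direction `u`, by `b` in the orthogonal directions -/
def str (a b : ℝ) (u : E) : E →L[ℝ] E :=
  b • ContinuousLinearMap.id ℝ E + (a - b) • (innerSL ℝ u).smulRight u

omit [FiniteDimensional ℝ E] in
theorem str_apply (a b : ℝ) (u w : E) : str a b u w = b • w + ((a - b) * inner ℝ u w) • u := by
  simp only [str, ContinuousLinearMap.add_apply, ContinuousLinearMap.smul_apply,
    ContinuousLinearMap.id_apply, ContinuousLinearMap.smulRight_apply, innerSL_apply_apply, smul_smul]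

theorem str_det {a b : ℝ} (hb : b ≠ 0) {u : E} (hu : ‖u‖ = 1) :
    LinearMap.det (str a b u : E →ₗ[ℝ] E) = b ^ (finrank ℝ E) * (a / b) := by
  have e : (str a b u : E →ₗ[ℝ] E) = b • LinearMap.transvection
      (((a - b) / b) • (innerSL ℝ u : E →ₗ[ℝ] ℝ)) u := by
    ext w
    simp only [ContinuousLinearMap.coe_coe, str_apply, LinearMap.smul_apply,
      LinearMap.transvection.apply, smul_add, smul_smul, innerSL_apply_apply, smul_eq_mul]
    congr 2
    field_simp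
  rw [e, LinearMap.det_smul, LinearMap.transvection.det]
  congr 1
  simp only [LinearMap.smul_apply, ContinuousLinearMap.coe_coe, innerSL_apply_apply,
    real_inner_self_eq_norm_sq, hu, smul_eq_mul]
  field_simp
  ring

omit [FiniteDimensional ℝ E] in
theorem str_sq {a b : ℝ} {u : E} (hu : ‖u‖ = 1) (f : E) :
    ‖str a b u f‖ ^ 2 = b ^ 2 * ‖f‖ ^ 2 + (a ^ 2 - b ^ 2) * inner ℝ u f ^ 2 := by
  rw [str_apply, ← real_inner_self_eq_norm_sq]
  simp only [inner_add_left, inner_add_right, inner_smul_left, inner_smul_right,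
    real_inner_self_eq_norm_sq, hu, RCLike.conj_to_real]
  rw [real_inner_comm u f]
  ring

omit [FiniteDimensional ℝ E] in
theorem str_symm (a b : ℝ) (u f w : E) :
    inner ℝ f (str a b u w) = inner ℝ (str a b u f) w := by
  rw [str_apply, str_apply]
  simp only [inner_add_left, inner_add_right, inner_smul_left, inner_smul_right,
    RCLike.conj_to_real]
  rw [real_inner_comm f u]
  ring

/-- John's theorem, for a map which maximizes the determinant -/
theorem joh_aux {X : Type} [NormedAddCommGroup X] [NormedSpace ℝ X] [FiniteDimensional ℝ X]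
    (e : X ≃L[ℝ] E) :
    ∃ T : X ≃ₗ[ℝ] E, ∀ x, ‖x‖ ≤ ‖T x‖ ∧ ‖T x‖ ≤ Real.sqrt (finrank ℝ E) * ‖x‖ := by
  classical
  obtain ⟨F, hF⟩ : ∃ F : (E →L[ℝ] X) → ℝ, F = fun S => |((e : X →L[ℝ] E).comp S).det| :=
    ⟨_, rfl⟩
  have hFc : Continuous F := by
    rw [hF]
    exact (ContinuousLinearMap.continuous_det.comp
      (continuous_const.clm_comp continuous_id)).abs
  haveI : ProperSpace (E →L[ℝ] X) := FiniteDimensional.proper_real _
  obtain ⟨S, hS, hmax⟩ := (isCompact_closedBall (0 : E →L[ℝ] X) 1).exists_isMaxOn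
    (Metric.nonempty_closedBall.2 zero_le_one) hFc.continuousOn
  have hS1 : ‖S‖ ≤ 1 := by simpa using hS
  have hmax' : ∀ R : E →L[ℝ] X, ‖R‖ ≤ 1 → F R ≤ F S := fun R hR =>
    hmax (by simpa using hR)
  -- the determinant is not zero
  have hpos : 0 < F S := by
    obtain ⟨c, hc⟩ : ∃ c : ℝ, c = ‖(e.symm : E →L[ℝ] X)‖ + 1 := ⟨_, rfl⟩
    have hc0 : 0 < c := by
      rw [hc]
      positivity
    have h1 : ‖c⁻¹ • (e.symm : E →L[ℝ] X)‖ ≤ 1 := by
      rw [norm_smul, norm_inv, Real.norm_of_nonneg hc0.le, inv_mul_le_iff₀ hc0, hc]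
      linarith
    refine lt_of_lt_of_le ?_ (hmax' _ h1)
    rw [hF]
    have h2 : (e : X →L[ℝ] E).comp (c⁻¹ • (e.symm : E →L[ℝ] X)) =
        c⁻¹ • ContinuousLinearMap.id ℝ E := by
      ext w
      simp
    show 0 < |((e : X →L[ℝ] E).comp (c⁻¹ • (e.symm : E →L[ℝ] X))).det|
    rw [h2, abs_pos, ContinuousLinearMap.det]
    have h3 : ((c⁻¹ • ContinuousLinearMap.id ℝ E : E →L[ℝ] E) : E →ₗ[ℝ] E) =
        c⁻¹ • LinearMap.id := rfl
    rw [h3, LinearMap.det_smul, LinearMap.det_id, mul_one]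
    positivity
  have hdet : LinearMap.det ((e : X →L[ℝ] E).comp S : E →ₗ[ℝ] E) ≠ 0 := by
    rw [hF] at hpos
    exact abs_pos.1 hpos
  -- `S` is bijective
  have hinj : Function.Injective S := by
    have h1 : IsUnit (LinearMap.det ((e : X →L[ℝ] E).comp S : E →ₗ[ℝ] E)) := hdet.isUnit
    have h2 := (LinearMap.isUnit_iff_isUnit_det _).2 h1
    have h3 := ((Module.End.isUnit_iff _).1 h2).injective
    intro x y hxy
    apply h3
    show e (S x) = e (S y)
    rw [hxy]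
  have hfr : finrank ℝ E = finrank ℝ X := e.symm.toLinearEquiv.finrank_eq
  obtain ⟨T, hT⟩ : ∃ T : E ≃ₗ[ℝ] X, ∀ w, T w = S w :=
    ⟨LinearEquiv.ofInjectiveOfFinrankEq (S : E →ₗ[ℝ] X) hinj hfr, fun w => rfl⟩
  refine ⟨T.symm, fun x => ?_⟩
  have hST : S (T.symm x) = x := by rw [← hT, T.apply_symm_apply]
  refine ⟨?_, ?_⟩
  · have h := S.le_of_opNorm_le hS1 (T.symm x)
    rw [hST, one_mul] at h
    exact h
  -- the second inequality
  by_contra hcon
  push Not at hcon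
  have hx : x ≠ 0 := by
    intro h0
    rw [h0, map_zero, norm_zero, norm_zero, mul_zero] at hcon
    exact lt_irrefl _ hcon
  have hx0 : 0 < ‖x‖ := norm_pos_iff.2 hx
  obtain ⟨v, hv⟩ : ∃ v : E, v = ‖x‖⁻¹ • T.symm x := ⟨_, rfl⟩
  obtain ⟨r, hr⟩ : ∃ r : ℝ, r = ‖v‖ := ⟨_, rfl⟩
  have hSv : ‖S v‖ = 1 := by
    rw [hv, map_smul, hST, norm_smul, norm_inv, norm_norm, inv_mul_cancel₀ hx0.ne']
  have hrn : Real.sqrt (finrank ℝ E) < r := by
    rw [hr, hv, norm_smul, norm_inv, norm_norm, lt_inv_mul_iff₀ hx0]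
    linarith
  have hr0 : 0 < r := (Real.sqrt_nonneg _).trans_lt hrn
  have hn1 : 1 ≤ finrank ℝ E := by
    rw [Nat.one_le_iff_ne_zero]
    intro h0
    haveI : Subsingleton E := finrank_zero_iff.1 h0
    have : v = 0 := Subsingleton.elim _ _
    rw [this, norm_zero] at hr
    linarith
  have hρ : (finrank ℝ E : ℝ) < r ^ 2 := by
    have h1 := Real.sq_sqrt (Nat.cast_nonneg (α := ℝ) (finrank ℝ E))
    have h2 := Real.sqrt_nonneg (finrank ℝ E : ℝ)
    nlinarith
  obtain ⟨t, ht0, ht1, ht⟩ := num hn1 hρ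
  obtain ⟨a, ha⟩ : ∃ a : ℝ, a = Real.sqrt (1 + t * (r ^ 2 - 1)) := ⟨_, rfl⟩
  obtain ⟨b, hb⟩ : ∃ b : ℝ, b = Real.sqrt (1 - t) := ⟨_, rfl⟩
  have hr1 : 1 < r ^ 2 := by
    have : (1 : ℝ) ≤ finrank ℝ E := by exact_mod_cast hn1
    linarith
  have ha2 : a ^ 2 = 1 + t * (r ^ 2 - 1) := by
    rw [ha, Real.sq_sqrt]
    nlinarith
  have hb2 : b ^ 2 = 1 - t := by
    rw [hb, Real.sq_sqrt]
    linarith
  have hb0 : 0 < b := by
    rw [hb]
    exact Real.sqrt_pos.2 (by linarith)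
  have ha0 : 0 < a := by
    rw [ha]
    exact Real.sqrt_pos.2 (by nlinarith)
  obtain ⟨u, hu⟩ : ∃ u : E, u = r⁻¹ • v := ⟨_, rfl⟩
  have hu1 : ‖u‖ = 1 := by
    rw [hu, norm_smul, norm_inv, Real.norm_of_nonneg hr0.le, ← hr, inv_mul_cancel₀ hr0.ne']
  have hvu : v = r • u := by
    rw [hu, smul_smul, mul_inv_cancel₀ hr0.ne', one_smul]
  -- the new map
  obtain ⟨R, hR⟩ : ∃ R : E →L[ℝ] X, R = S.comp (str a b u) := ⟨_, rfl⟩
  have hR1 : ‖R‖ ≤ 1 := by
    refine ContinuousLinearMap.opNorm_le_bound _ zero_le_one fun w => ?_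
    rw [one_mul]
    obtain ⟨g, hg1, hg2⟩ := exists_dual_vector'' ℝ (R w)
    have hg3 : g (R w) = ‖R w‖ := hg2
    obtain ⟨f, hf⟩ : ∃ f : E, ∀ z, g (S z) = inner ℝ f z := by
      refine ⟨(InnerProductSpace.toDual ℝ E).symm (g.comp S), fun z => ?_⟩
      rw [InnerProductSpace.toDual_symm_apply]
      rfl
    have hf1 : ‖f‖ ≤ 1 := by
      have h1 : ‖f‖ ^ 2 ≤ ‖f‖ := by
        rw [← real_inner_self_eq_norm_sq, ← hf f]
        have h2 := g.le_of_opNorm_le hg1 (S f)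
        have h3 := S.le_of_opNorm_le hS1 f
        rw [one_mul] at h2 h3
        exact (le_abs_self _).trans ((Real.norm_eq_abs _ ▸ h2).trans h3)
      by_contra h4
      push Not at h4
      nlinarith
    have hfu : |inner ℝ f u| ≤ r⁻¹ := by
      have h1 : |inner ℝ f v| ≤ 1 := by
        rw [← hf v, ← Real.norm_eq_abs]
        have h2 := g.le_of_opNorm_le hg1 (S v)
        rw [one_mul, hSv] at h2
        exact h2
      rw [hu, inner_smul_right, abs_mul, abs_of_pos (inv_pos.2 hr0)]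
      have := mul_le_mul_of_nonneg_left h1 (inv_pos.2 hr0).le
      linarith
    have h5 : ‖str a b u f‖ ≤ 1 := by
      have h6 : ‖str a b u f‖ ^ 2 ≤ 1 := by
        rw [str_sq hu1, real_inner_comm f u, ha2, hb2]
        have h7 : inner ℝ f u ^ 2 ≤ (r⁻¹) ^ 2 := by
          rw [← sq_abs]
          exact pow_le_pow_left₀ (abs_nonneg _) hfu 2
        have h8 : ‖f‖ ^ 2 ≤ 1 := pow_le_one₀ (norm_nonneg _) hf1
        have h9 : (1 + t * (r ^ 2 - 1) - (1 - t)) * inner ℝ f u ^ 2 ≤ t := by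
          have e1 : 1 + t * (r ^ 2 - 1) - (1 - t) = t * r ^ 2 := by ring
          rw [e1]
          have e2 : t * r ^ 2 * (r⁻¹) ^ 2 = t := by
            field_simp
          calc t * r ^ 2 * inner ℝ f u ^ 2 ≤ t * r ^ 2 * (r⁻¹) ^ 2 :=
                mul_le_mul_of_nonneg_left h7 (by positivity)
            _ = t := e2
        have h10 : (1 - t) * ‖f‖ ^ 2 ≤ (1 - t) * 1 :=
          mul_le_mul_of_nonneg_left h8 (by linarith)
        linarith
      by_contra h11
      push Not at h11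
      nlinarith
    have h12 : ‖R w‖ = inner ℝ (str a b u f) w := by
      rw [← hg3, hR, ContinuousLinearMap.comp_apply, hf, str_symm]
    rw [h12]
    have h13 := real_inner_le_norm (str a b u f) w
    have h14 : ‖str a b u f‖ * ‖w‖ ≤ 1 * ‖w‖ := mul_le_mul_of_nonneg_right h5 (norm_nonneg _)
    linarith
  have hFR : F R = F S * (b ^ (finrank ℝ E) * (a / b)) := by
    have h1 : (((e : X →L[ℝ] E).comp R : E →L[ℝ] E) : E →ₗ[ℝ] E) =
        (((e : X →L[ℝ] E).comp S : E →L[ℝ] E) : E →ₗ[ℝ] E) ∘ₗ (str a b u : E →ₗ[ℝ] E) := by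
      rw [hR]
      rfl
    have h2 : LinearMap.det (((e : X →L[ℝ] E).comp R : E →L[ℝ] E) : E →ₗ[ℝ] E) =
        LinearMap.det (((e : X →L[ℝ] E).comp S : E →L[ℝ] E) : E →ₗ[ℝ] E) *
          (b ^ (finrank ℝ E) * (a / b)) := by
      rw [h1, LinearMap.det_comp, str_det hb0.ne' hu1]
    rw [hF]
    show |LinearMap.det (((e : X →L[ℝ] E).comp R : E →L[ℝ] E) : E →ₗ[ℝ] E)| =
      |LinearMap.det (((e : X →L[ℝ] E).comp S : E →L[ℝ] E) : E →ₗ[ℝ] E)| * _
    rw [h2, abs_mul, abs_of_pos (a := b ^ (finrank ℝ E) * (a / b)) (by positivity)]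
  have hgt : 1 < b ^ (finrank ℝ E) * (a / b) := by
    obtain ⟨m, hm⟩ : ∃ m, finrank ℝ E = m + 1 := ⟨finrank ℝ E - 1, by omega⟩
    have h1 : b ^ (finrank ℝ E) * (a / b) = a * b ^ m := by
      rw [hm, pow_succ]
      field_simp
    rw [h1]
    have h2 : 1 < (a * b ^ m) ^ 2 := by
      rw [hm, Nat.add_sub_cancel] at ht
      rw [mul_pow, ← pow_mul, mul_comm m 2, pow_mul, ha2, hb2]
      exact ht
    have h3 : 0 < a * b ^ m := by positivity
    nlinarith
  have h4 := hmax' R hR1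
  rw [hFR] at h4
  nlinarith

/-- John's theorem: `d(X, ℓ₂ⁿ) ≤ √n` -/
theorem joh (X : Type) [NormedAddCommGroup X] [NormedSpace ℝ X] [FiniteDimensional ℝ X] :
    ∃ T : X ≃ₗ[ℝ] EuclideanSpace ℝ (Fin (finrank ℝ X)),
      ∀ x, ‖T x‖ ≤ ‖x‖ ∧ ‖x‖ ≤ Real.sqrt (finrank ℝ X) * ‖T x‖ := by
  have hfr : finrank ℝ X = finrank ℝ (EuclideanSpace ℝ (Fin (finrank ℝ X))) := by
    rw [finrank_euclideanSpace_fin]
  obtain ⟨T, hT⟩ := joh_aux (ContinuousLinearEquiv.ofFinrankEq hfr :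
    X ≃L[ℝ] EuclideanSpace ℝ (Fin (finrank ℝ X)))
  rw [finrank_euclideanSpace_fin] at hT
  rcases Nat.eq_zero_or_pos (finrank ℝ X) with h0 | hpos
  · refine ⟨T, fun x => ?_⟩
    haveI : Subsingleton X := finrank_zero_iff.1 h0
    have hx : x = 0 := Subsingleton.elim _ _
    rw [hx, map_zero, norm_zero, norm_zero, mul_zero]
    exact ⟨le_rfl, le_rfl⟩
  · have hs : 0 < Real.sqrt (finrank ℝ X) := Real.sqrt_pos.2 (by exact_mod_cast hpos)
    refine ⟨T.trans (LinearEquiv.smulOfNeZero ℝ _ (Real.sqrt (finrank ℝ X))⁻¹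
      (inv_ne_zero hs.ne')), fun x => ?_⟩
    have e : (T.trans (LinearEquiv.smulOfNeZero ℝ _ (Real.sqrt (finrank ℝ X))⁻¹
      (inv_ne_zero hs.ne'))) x = (Real.sqrt (finrank ℝ X))⁻¹ • T x := rfl
    rw [e, norm_smul, norm_inv, Real.norm_of_nonneg hs.le]
    constructor
    · rw [inv_mul_le_iff₀ hs]
      exact (hT x).2
    · rw [← mul_assoc, mul_inv_cancel₀ hs.ne', one_mul]
      exact (hT x).1

end Pool.Agent.RHP.H56
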