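import Pool.Agent.PJC.Stmts

/-!
# Squad PJC, row KER: the kernel at a state (separation)
-/

set_option autoImplicit false

noncomputable section

namespace Pool.Agent.PJC.H56

open Pool.Agent.PJC

variable {n : ℕ}

theorem snorm_cont {r : Seminorm ℝ (Eu n)} {K : ℝ} (h : ∀ x, r x ≤ K * ‖x‖) :
    Continuous r := by
  have hK : LipschitzWith (Real.toNNReal |K|) r := by
    refine LipschitzWith.of_dist_le_mul fun x y => ?_
    rw [Real.dist_eq, dist_eq_norm, Real.coe_toNNReal _ (abs_nonneg _)]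
    refine (abs_sub_map_le_sub r x y).trans ((h _).trans ?_)
    exact mul_le_mul_of_nonneg_right (le_abs_self _) (norm_nonneg _)
  exact hK.continuous

theorem dual_le {p q : Seminorm ℝ (Eu n)} {c : ℝ} (hc : 0 < c) (hp : ∀ v, c * ‖v‖ ≤ p v)
    (hd : IsDual p q) (f : Eu n) : q f ≤ c⁻¹ * ‖f‖ := by
  obtain ⟨v, hv1, hv2⟩ := hd.exP f
  rw [← hv2]
  have h1 := real_inner_le_norm f v
  have h2 : ‖v‖ ≤ c⁻¹ := by
    rw [← one_div, le_div_iff₀ hc]
    have := hp v
    linarith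
  have h3 := mul_le_mul_of_nonneg_left h2 (norm_nonneg f)
  linarith

theorem dual_le' {p q : Seminorm ℝ (Eu n)} {c : ℝ} (hc : 0 < c) (hq : ∀ v, c * ‖v‖ ≤ q v)
    (hd : IsDual p q) (v : Eu n) : p v ≤ c⁻¹ * ‖v‖ := by
  obtain ⟨f, hf1, hf2⟩ := hd.exQ v
  rw [← hf2]
  have h1 := real_inner_le_norm f v
  have h2 : ‖f‖ ≤ c⁻¹ := by
    rw [← one_div, le_div_iff₀ hc]
    have := hq f
    linarith
  have h3 := mul_le_mul_of_nonneg_right h2 (norm_nonneg v)
  linarith

/-- the compact set of the points of the kernel -/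
def C0 (p q : Seminorm ℝ (Eu n)) (t : Eu n) : Set (ℝ × Eu n) :=
  (fun x : Eu n × Eu n => ((inner ℝ x.1 x.2 : ℝ), (inner ℝ t x.2 : ℝ) • x.1)) ''
    ({g | q g = 1} ×ˢ {y | p y ≤ 1})

theorem C0_compact {p q : Seminorm ℝ (Eu n)} {c : ℝ} (hc : 0 < c) (hp : ∀ v, c * ‖v‖ ≤ p v)
    (hq : ∀ v, c * ‖v‖ ≤ q v) (hd : IsDual p q) (t : Eu n) : IsCompact (C0 p q t) := by
  have h1 : Continuous q := snorm_cont (dual_le hc hp hd)
  have h2 : Continuous p := snorm_cont (dual_le' hc hq hd)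
  have k1 : IsCompact {g : Eu n | q g = 1} := by
    refine Metric.isCompact_of_isClosed_isBounded (isClosed_eq h1 continuous_const) ?_
    refine (Metric.isBounded_closedBall (x := (0 : Eu n)) (r := c⁻¹)).subset fun g hg => ?_
    rw [mem_closedBall_zero_iff, ← one_div, le_div_iff₀ hc]
    have := hq g
    rw [Set.mem_setOf_eq] at hg
    linarith
  have k2 : IsCompact {y : Eu n | p y ≤ 1} := by
    refine Metric.isCompact_of_isClosed_isBounded (isClosed_le h2 continuous_const) ?_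
    refine (Metric.isBounded_closedBall (x := (0 : Eu n)) (r := c⁻¹)).subset fun g hg => ?_
    rw [mem_closedBall_zero_iff, ← one_div, le_div_iff₀ hc]
    have := hp g
    rw [Set.mem_setOf_eq] at hg
    linarith
  have h3 : Continuous fun x : Eu n × Eu n => (inner ℝ t x.2 : ℝ) :=
    continuous_const.inner continuous_snd
  have h4 : Continuous fun x : Eu n × Eu n => (inner ℝ x.1 x.2 : ℝ) :=
    continuous_fst.inner continuous_snd
  have h5 : Continuous fun x : Eu n × Eu n => (inner ℝ t x.2 : ℝ) • x.1 := by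
    exact Continuous.smul h3 continuous_fst
  have hcont : Continuous fun x : Eu n × Eu n =>
      ((inner ℝ x.1 x.2 : ℝ), (inner ℝ t x.2 : ℝ) • x.1) := h4.prodMk h5
  exact (k1.prod k2).image hcont

/-- the target half plane -/
def G0 (ε : ℝ) (t : Eu n) : Set (ℝ × Eu n) :=
  {x | ∃ s : ℝ, 2 - ε ≤ x.1 + s ∧ x.2 = (-s) • t}

theorem G0_convex (ε : ℝ) (t : Eu n) : Convex ℝ (G0 ε t) := by
  rintro x ⟨s, hs1, hs2⟩ y ⟨r, hr1, hr2⟩ a b ha hb hab
  refine ⟨a * s + b * r, ?_, ?_⟩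
  · show 2 - ε ≤ a * x.1 + b * y.1 + (a * s + b * r)
    have h1 := mul_le_mul_of_nonneg_left hs1 ha
    have h2 := mul_le_mul_of_nonneg_left hr1 hb
    have h3 : 2 - ε = a * (2 - ε) + b * (2 - ε) := by rw [← add_mul, hab, one_mul]
    linarith
  · show a • x.2 + b • y.2 = _
    rw [hs2, hr2, smul_smul, smul_smul, ← add_smul]
    congr 1
    ring

theorem G0_closed (ε : ℝ) {t : Eu n} (ht : t ≠ 0) : IsClosed (G0 ε t) := by
  have ht2 : inner ℝ t t ≠ (0 : ℝ) := by
    rw [real_inner_self_eq_norm_sq]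
    exact pow_ne_zero _ (norm_ne_zero_iff.2 ht)
  have e : G0 ε t = {x | 2 - ε ≤ x.1 - inner ℝ t x.2 / inner ℝ t t} ∩
      {x | x.2 = (inner ℝ t x.2 / inner ℝ t t : ℝ) • t} := by
    ext x
    constructor
    · rintro ⟨s, hs1, hs2⟩
      have h : (inner ℝ t x.2 / inner ℝ t t : ℝ) = -s := by
        rw [hs2, inner_smul_right]
        field_simp
      constructor
      · show 2 - ε ≤ x.1 - inner ℝ t x.2 / inner ℝ t t
        rw [h]
        linarith
      · show x.2 = (inner ℝ t x.2 / inner ℝ t t : ℝ) • t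
        rw [h, hs2]
    · rintro ⟨h1, h2⟩
      have h1' : 2 - ε ≤ x.1 - inner ℝ t x.2 / inner ℝ t t := h1
      refine ⟨-(inner ℝ t x.2 / inner ℝ t t), by linarith, ?_⟩
      rw [neg_neg]
      exact h2
  rw [e]
  have hc1 : Continuous fun x : ℝ × Eu n => (inner ℝ t x.2 / inner ℝ t t : ℝ) :=
    (continuous_const.inner continuous_snd).div_const _
  refine IsClosed.inter (isClosed_le continuous_const (continuous_fst.sub hc1)) ?_
  exact isClosed_eq continuous_snd (hc1.smul continuous_const)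

theorem not_disj {p q : Seminorm ℝ (Eu n)} {c ε : ℝ} (hc : 0 < c) (hp : ∀ v, c * ‖v‖ ≤ p v)
    (hq : ∀ v, c * ‖v‖ ≤ q v) (hd : IsDual p q) (hε : 0 < ε) (hε1 : ε < 1) (hbad : Bad ε p q)
    {t : Eu n} (ht : q t = 1) (hul : HulStmt) :
    ¬ Disjoint (convexHull ℝ (C0 p q t)) (G0 ε t) := by
  intro hdis
  have ht0 : t ≠ 0 := by
    intro h
    rw [h, map_zero] at ht
    exact zero_ne_one ht
  obtain ⟨f, u, v, h1, huv, h2⟩ := geometric_hahn_banach_compact_closed (convex_convexHull ℝ _)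
    (hul (ℝ × Eu n) _ (C0_compact hc hp hq hd t)) (G0_convex ε t) (G0_closed ε ht0) hdis
  obtain ⟨α, hα⟩ : ∃ α : ℝ, α = f (1, 0) := ⟨_, rfl⟩
  obtain ⟨x, hx⟩ : ∃ x : Eu n, ∀ z : Eu n, f (0, z) = inner ℝ x z := by
    refine ⟨(InnerProductSpace.toDual ℝ (Eu n)).symm
      (f.comp (ContinuousLinearMap.inr ℝ ℝ (Eu n))), fun z => ?_⟩
    rw [InnerProductSpace.toDual_symm_apply]
    rfl
  have hf : ∀ (r : ℝ) (z : Eu n), f (r, z) = α * r + inner ℝ x z := by
    intro r z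
    have e : ((r, z) : ℝ × Eu n) = r • ((1 : ℝ), (0 : Eu n)) + ((0 : ℝ), z) := by
      ext1 <;> simp
    rw [e, map_add, map_smul, hx, ← hα, smul_eq_mul]
    ring
  obtain ⟨τ, hτ⟩ : ∃ τ : ℝ, τ = inner ℝ x t := ⟨_, rfl⟩
  have hG : ∀ r s : ℝ, 2 - ε ≤ r + s → v < α * r - s * τ := by
    intro r s hrs
    have := h2 (r, (-s) • t) ⟨s, hrs, rfl⟩
    rw [hf, inner_smul_right, ← hτ] at this
    linarith
  have hατ : α + τ = 0 := by
    by_contra hne
    have h3 := hG ((v + (2 - ε) * τ) / (α + τ)) (2 - ε - (v + (2 - ε) * τ) / (α + τ)) (by linarith)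
    have h4 : (v + (2 - ε) * τ) / (α + τ) * (α + τ) = v + (2 - ε) * τ := div_mul_cancel₀ _ hne
    nlinarith
  have hτ' : τ = -α := by linarith
  have h0 : 0 < u := by
    have h3 : ((0 : ℝ), (0 : Eu n)) ∈ convexHull ℝ (C0 p q t) := by
      apply subset_convexHull
      refine ⟨(t, 0), ⟨ht, ?_⟩, ?_⟩
      · show p 0 ≤ 1
        rw [map_zero]
        exact zero_le_one
      · simp
    have h4 := h1 _ h3
    rw [hf, mul_zero, inner_zero_right, add_zero] at h4
    exact h4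
  have hα0 : v < α * (2 - ε) := by
    have := hG (2 - ε) 0 (by linarith)
    linarith
  have hαpos : 0 < α := by
    by_contra hneg
    push Not at hneg
    nlinarith
  -- the vector `z`
  obtain ⟨z, hz⟩ : ∃ z : Eu n, z = (-α⁻¹) • x := ⟨_, rfl⟩
  have hxz : ∀ g : Eu n, inner ℝ x g = -α * inner ℝ g z := by
    intro g
    rw [hz, inner_smul_right, real_inner_comm x g]
    field_simp
  have htz : inner ℝ t z = (1 : ℝ) := by
    have h3 := hxz t
    rw [← hτ, hτ'] at h3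
    have h4 : α * (inner ℝ t z - 1 : ℝ) = 0 := by linarith
    rcases mul_eq_zero.1 h4 with h5 | h5
    · exact absurd h5 hαpos.ne'
    · linarith
  obtain ⟨g, y, hg1, hy1, hgy⟩ := hbad t z htz
  have hg0 : q g ≠ 0 := by
    intro h3
    have h4 := hq g
    rw [h3] at h4
    have h5 : ‖g‖ = 0 := by
      have := norm_nonneg g
      by_contra h6
      have : 0 < ‖g‖ := lt_of_le_of_ne this (Ne.symm h6)
      nlinarith
    rw [norm_eq_zero.1 h5, inner_zero_left, inner_zero_left, mul_zero] at hgy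
    linarith
  have hgpos : 0 < q g := lt_of_le_of_ne (apply_nonneg q g) (Ne.symm hg0)
  obtain ⟨g', hg'⟩ : ∃ g' : Eu n, g' = (q g)⁻¹ • g := ⟨_, rfl⟩
  have hg'1 : q g' = 1 := by
    rw [hg', map_smul_eq_mul, norm_inv, Real.norm_of_nonneg hgpos.le, inv_mul_cancel₀ hg0]
  have hval : 2 - ε ≤ inner ℝ g' y - inner ℝ t y * inner ℝ g' z := by
    have e : inner ℝ g' y - inner ℝ t y * inner ℝ g' z =
        (q g)⁻¹ * (inner ℝ g y - inner ℝ t y * inner ℝ g z) := by
      rw [hg', inner_smul_left, inner_smul_left]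
      simp only [RCLike.conj_to_real]
      ring
    rw [e]
    have h3 : 1 ≤ (q g)⁻¹ := (one_le_inv₀ hgpos).2 hg1
    have h4 : (1 : ℝ) * (2 - ε) ≤
        (q g)⁻¹ * (inner ℝ g y - inner ℝ t y * inner ℝ g z) :=
      mul_le_mul h3 hgy (by linarith) (by positivity)
    linarith
  have h5 := h1 ((inner ℝ g' y : ℝ), (inner ℝ t y : ℝ) • g')
    (subset_convexHull ℝ _ ⟨(g', y), ⟨hg'1, hy1⟩, rfl⟩)
  rw [hf, inner_smul_right, hxz g'] at h5
  have h6 : α * (2 - ε) ≤ α * (inner ℝ g' y - inner ℝ t y * inner ℝ g' z) :=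
    mul_le_mul_of_nonneg_left hval hαpos.le
  have h7 : α * (inner ℝ g' y - inner ℝ t y * inner ℝ g' z) =
    α * inner ℝ g' y + inner ℝ t y * (-α * inner ℝ g' z) := by ring
  linarith

/-- KER -/
theorem ker (hul : HulStmt) : KerStmt := by
  intro n p q c ε hc hp hq hd hε hε1 hbad t ht
  obtain ⟨x, hx1, s, hs1, hs2⟩ := Set.not_disjoint_iff.1 (not_disj hc hp hq hd hε hε1 hbad ht hul)
  obtain ⟨ι, hι, w, z, hw0, hw1, hz, hsum⟩ := mem_convexHull_iff_exists_fintype.1 hx1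
  choose a ha1 ha2 using hz
  obtain ⟨e⟩ : Nonempty (ι ≃ Fin (Fintype.card ι)) := ⟨Fintype.equivFin ι⟩
  have hsumE : ∀ {M : Type} [AddCommMonoid M] (F : ι → M), ∑ i, F (e.symm i) = ∑ i, F i :=
    fun F => Equiv.sum_comp e.symm F
  refine ⟨Fintype.card ι, fun i => w (e.symm i), fun i => (a (e.symm i)).1,
    fun i => (a (e.symm i)).2, s, ?_⟩
  have h1 : ∑ i, w i * inner ℝ (a i).1 (a i).2 = x.1 := by
    rw [← hsum, Prod.fst_sum]
    refine Finset.sum_congr rfl fun i _ => ?_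
    rw [← ha2 i]
    rfl
  have h2 : ∑ i, (w i * inner ℝ t (a i).2) • (a i).1 = x.2 := by
    rw [← hsum, Prod.snd_sum]
    refine Finset.sum_congr rfl fun i _ => ?_
    rw [← ha2 i, mul_smul]
    rfl
  refine ⟨fun i => hw0 _, ?_, fun i => (ha1 _).1, fun i => (ha1 _).2, ?_, ?_⟩
  · rw [← hw1]
    exact hsumE w
  · rw [← hs2, ← h2]
    exact hsumE fun i => (w i * inner ℝ t (a i).2) • (a i).1
  · have h3 : ∑ i, w (e.symm i) * inner ℝ (a (e.symm i)).1 (a (e.symm i)).2 = x.1 := by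
      rw [← h1]
      exact hsumE fun i => w i * (inner ℝ (a i).1 (a i).2 : ℝ)
    rw [h3]
    exact hs1

end Pool.Agent.PJC.H56
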