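import Pool.Agent.PJC.Stmts

/-!
# Squad PJC, row STA: nearly stationary finite families
-/

set_option autoImplicit false

namespace Pool.Agent.PJC.H56

/-- A finite weighted family of points. -/
structure Fam (S : Type) where
  /-- the index set -/
  A : Type
  [fA : Fintype A]
  /-- the weights -/
  μ : A → ℝ
  /-- the points -/
  t : A → S

attribute [instance] Fam.fA

variable {S : Type}

/-- The integral. -/
noncomputable def Fam.int (F : Fam S) (f : S → ℝ) : ℝ := ∑ a, F.μ a * f (F.t a)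

/-- One step of the chain. -/
noncomputable def Fam.step (F : Fam S) (N : S → ℕ) (w : ∀ x, Fin (N x) → ℝ)
    (T : ∀ x, Fin (N x) → S) : Fam S where
  A := Σ a : F.A, Fin (N (F.t a))
  μ x := F.μ x.1 * w (F.t x.1) x.2
  t x := T (F.t x.1) x.2

theorem Fam.step_int (F : Fam S) (N : S → ℕ) (w : ∀ x, Fin (N x) → ℝ)
    (T : ∀ x, Fin (N x) → S) (f : S → ℝ) :
    (F.step N w T).int f = F.int (fun x => ∑ i, w x i * f (T x i)) := by
  unfold Fam.int
  change ∑ x : (Σ a : F.A, Fin (N (F.t a))),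
    F.μ x.1 * w (F.t x.1) x.2 * f (T (F.t x.1) x.2) = _
  rw [Fintype.sum_sigma]
  refine Finset.sum_congr rfl fun a _ => ?_
  rw [Finset.mul_sum]
  exact Finset.sum_congr rfl fun i _ => by ring

/-- The chain started at a point. -/
noncomputable def fam (N : S → ℕ) (w : ∀ x, Fin (N x) → ℝ) (T : ∀ x, Fin (N x) → S) (x0 : S) :
    ℕ → Fam S
  | 0 => { A := Unit, μ := fun _ => 1, t := fun _ => x0 }
  | k + 1 => (fam N w T x0 k).step N w T

theorem fam_nonneg (N : S → ℕ) (w : ∀ x, Fin (N x) → ℝ) (T : ∀ x, Fin (N x) → S) (x0 : S)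
    (hw : ∀ x i, 0 ≤ w x i) : ∀ (k : ℕ) (a : (fam N w T x0 k).A), 0 ≤ (fam N w T x0 k).μ a
  | 0, _ => zero_le_one
  | k + 1, a => mul_nonneg (fam_nonneg N w T x0 hw k a.1) (hw _ _)

theorem fam_one (N : S → ℕ) (w : ∀ x, Fin (N x) → ℝ) (T : ∀ x, Fin (N x) → S) (x0 : S)
    (hw : ∀ x, ∑ i, w x i = 1) (k : ℕ) : (fam N w T x0 k).int (fun _ => 1) = 1 := by
  induction k with
  | zero =>
    unfold Fam.int
    change ∑ _a : Unit, (1 : ℝ) * 1 = 1
    simp
  | succ k ih =>
    change ((fam N w T x0 k).step N w T).int (fun _ => 1) = 1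
    rw [Fam.step_int]
    simp only [mul_one, hw]
    exact ih

theorem fam_abs (N : S → ℕ) (w : ∀ x, Fin (N x) → ℝ) (T : ∀ x, Fin (N x) → S) (x0 : S)
    (hw0 : ∀ x i, 0 ≤ w x i) (hw : ∀ x, ∑ i, w x i = 1) (k : ℕ) (f : S → ℝ)
    (hf : ∀ x, |f x| ≤ 1) : |(fam N w T x0 k).int f| ≤ 1 := by
  have h := fam_one N w T x0 hw k
  unfold Fam.int at h ⊢
  refine (Finset.abs_sum_le_sum_abs _ _).trans ?_
  rw [← h]
  refine Finset.sum_le_sum fun a _ => ?_
  rw [abs_mul, abs_of_nonneg (fam_nonneg N w T x0 hw0 k a)]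
  exact mul_le_mul_of_nonneg_left (hf _) (fam_nonneg N w T x0 hw0 k a)

theorem int_sub (F : Fam S) (f g : S → ℝ) :
    F.int (fun x => f x - g x) = F.int f - F.int g := by
  unfold Fam.int
  rw [← Finset.sum_sub_distrib]
  exact Finset.sum_congr rfl fun a _ => by ring

theorem sum_pad {E : Type} [AddCommMonoid E] {N M : ℕ} (h : N ≤ M) (g : Fin N → E) :
    ∑ i : Fin M, (if h : i.1 < N then g ⟨i.1, h⟩ else 0) = ∑ i, g i := by
  obtain ⟨r, rfl⟩ := Nat.exists_eq_add_of_le h
  rw [Fin.sum_univ_add]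
  simp

variable {n : ℕ}

theorem law_pad {p q : Seminorm ℝ (Eu n)} {ε : ℝ} {t : Eu n} (ht : q t = 1) {N M : ℕ}
    (h : N ≤ M) {w : Fin N → ℝ} {t' v : Fin N → Eu n} {e k : ℝ}
    (hl : IsLaw p q ε t w t' v e k) :
    ∃ (w' : Fin M → ℝ) (t'' v' : Fin M → Eu n), IsLaw p q ε t w' t'' v' e k ∧
      ∀ f : Eu n → ℝ, ∑ i, w' i * f (t'' i) = ∑ i, w i * f (t' i) := by
  set w' : Fin M → ℝ := fun i => if h : i.1 < N then w ⟨i.1, h⟩ else 0 with hw'
  set t'' : Fin M → Eu n := fun i => if h : i.1 < N then t' ⟨i.1, h⟩ else t with ht''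
  set v' : Fin M → Eu n := fun i => if h : i.1 < N then v ⟨i.1, h⟩ else 0 with hv'
  have key : ∀ (E : Type) [AddCommMonoid E] (G : ℝ → Eu n → Eu n → E), G 0 t 0 = 0 →
      ∑ i, G (w' i) (t'' i) (v' i) = ∑ i, G (w i) (t' i) (v i) := by
    intro E _ G hG
    rw [← sum_pad h (fun i => G (w i) (t' i) (v i))]
    refine Finset.sum_congr rfl fun i _ => ?_
    simp only [hw', ht'', hv']
    by_cases hi : i.1 < N
    · simp only [hi, dif_pos]
    · simp only [hi, dif_neg, not_false_eq_true, hG]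
  refine ⟨w', t'', v', ?_, ?_⟩
  · refine ⟨?_, ?_, ?_, ?_, ?_, hl.e0, hl.k0, hl.k1, ?_, ?_⟩
    · intro i
      simp only [hw']
      split_ifs
      · exact hl.w0 _
      · exact le_refl _
    · rw [key ℝ (fun a _ _ => a) rfl]
      exact hl.w1
    · intro i
      simp only [ht'']
      split_ifs
      · exact hl.st _
      · exact ht
    · intro i
      simp only [hv']
      split_ifs
      · exact hl.pt _
      · rw [map_zero]
        exact zero_le_one
    · rw [key (Eu n) (fun a b _ => a • b) (zero_smul _ _)]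
      exact hl.mean
    · rw [key ℝ (fun a _ c => a * (1 - inner ℝ t c)) (zero_mul _)]
      exact hl.e3
    · rw [key ℝ (fun a b c => a * (1 + inner ℝ b c)) (zero_mul _)]
      exact hl.bud
  · intro f
    exact key ℝ (fun a b _ => a * f b) (zero_mul _)

/-- STA. -/
theorem sta : StaStmt := by
  intro n p q ε d hd hd0 hS hV hex hlaw
  obtain ⟨t0, ht0⟩ := hex
  have hlaw' : ∀ x : {x : Eu n // q x = 1}, ∃ (N : ℕ) (w : Fin N → ℝ) (t' v : Fin N → Eu n)
      (e k : ℝ), IsLaw p q ε x.1 w t' v e k := fun x => hlaw x.1 x.2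
  choose N w t' v e k hL using hlaw'
  obtain ⟨L, hL1⟩ := exists_nat_gt (2 / d)
  have hLpos : (0 : ℝ) < L := lt_of_le_of_lt (by positivity) hL1
  have hLd : 2 / (L : ℝ) ≤ d := by
    rw [div_lt_iff₀ hd0] at hL1
    rw [div_le_iff₀ hLpos]
    linarith
  set T : ∀ x : {x : Eu n // q x = 1}, Fin (N x) → {x : Eu n // q x = 1} :=
    fun x i => ⟨t' x i, (hL x).st i⟩ with hT
  set F := fam N w T ⟨t0, ht0⟩ with hF
  have hw0 : ∀ x i, 0 ≤ w x i := fun x i => (hL x).w0 i
  have hw1 : ∀ x, ∑ i, w x i = 1 := fun x => (hL x).w1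
  -- a common bound for the number of transitions
  obtain ⟨M, hM⟩ : ∃ M : ℕ, ∀ a : (Σ j : Fin L, (F j.1).A), N ((F a.1.1).t a.2) ≤ M :=
    ⟨Finset.univ.sup fun a : (Σ j : Fin L, (F j.1).A) => N ((F a.1.1).t a.2),
      fun a => Finset.le_sup (f := fun a : (Σ j : Fin L, (F j.1).A) => N ((F a.1.1).t a.2))
        (Finset.mem_univ a)⟩
  have hpad := fun a : (Σ j : Fin L, (F j.1).A) =>
    law_pad ((F a.1.1).t a.2).2 (hM a) (hL ((F a.1.1).t a.2))
  choose W T' V' hW hWf using hpad
  have hsum : ∀ G : {x : Eu n // q x = 1} → ℝ,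
      ∑ a : (Σ j : Fin L, (F j.1).A), 1 / (L : ℝ) * (F a.1.1).μ a.2 * G ((F a.1.1).t a.2) =
        1 / (L : ℝ) * ∑ j ∈ Finset.range L, (F j).int G := by
    intro G
    rw [Fintype.sum_sigma, Finset.sum_range fun j => (F j).int G, Finset.mul_sum]
    refine Finset.sum_congr rfl fun j _ => ?_
    unfold Fam.int
    rw [Finset.mul_sum]
    exact Finset.sum_congr rfl fun a _ => by ring
  refine ⟨{ A := Σ j : Fin L, (F j.1).A
            I := Fin M
            μ := fun a => 1 / (L : ℝ) * (F a.1.1).μ a.2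
            w := W
            t := fun a => ((F a.1.1).t a.2).1
            t' := T'
            v := V'
            e := fun a => e ((F a.1.1).t a.2)
            k := fun a => k ((F a.1.1).t a.2) }, ?_, ?_⟩
  · refine ⟨?_, ?_, ?_, ?_, ?_, ?_, ?_, ?_, ?_, ?_, ?_, ?_, ?_, ?_, ?_, ?_⟩
    · intro a
      exact mul_nonneg (by positivity) (fam_nonneg N w T _ hw0 _ _)
    · have h := hsum (fun _ => 1)
      simp only [mul_one] at h
      change ∑ a : (Σ j : Fin L, (F j.1).A), 1 / (L : ℝ) * (F a.1.1).μ a.2 = 1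
      rw [h]
      have h2 : ∀ j ∈ Finset.range L, (F j).int (fun _ => 1) = 1 := fun j _ =>
        fam_one N w T _ hw1 j
      rw [Finset.sum_congr rfl h2]
      simp only [Finset.sum_const, Finset.card_range, nsmul_eq_mul, mul_one]
      field_simp
    · exact fun a => (hW a).w0
    · exact fun a => (hW a).w1
    · exact fun a => ((F a.1.1).t a.2).2
    · exact fun a i => (hW a).st i
    · exact fun a => (hW a).mean
    · exact fun a => (hW a).e0
    · exact fun a => (hW a).k0
    · exact fun a => (hW a).k1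
    · exact fun a => (hW a).e3
    · exact fun a => (hW a).bud
    · intro x hx a i
      have hx' : q x = 1 := hx
      have hp : p (V' a i) ≤ 1 := (hW a).pt i
      have h1 := hd.le x (V' a i)
      have h2 := hd.le (-x) (V' a i)
      rw [map_neg_eq_map, hx', one_mul, inner_neg_left] at h2
      rw [hx', one_mul] at h1
      exact abs_le.mpr ⟨by linarith, by linarith⟩
    · exact fun x hx => hS x hx
    · exact fun a i => hV _ ((hW a).pt i)
    · intro f hf
      change |∑ a : (Σ j : Fin L, (F j.1).A), 1 / (L : ℝ) * (F a.1.1).μ a.2 *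
        (∑ i, W a i * f (T' a i) - f ((F a.1.1).t a.2).1)| ≤ d
      have h1 : ∑ a : (Σ j : Fin L, (F j.1).A), 1 / (L : ℝ) * (F a.1.1).μ a.2 *
          (∑ i, W a i * f (T' a i) - f ((F a.1.1).t a.2).1) =
          1 / (L : ℝ) * ∑ j ∈ Finset.range L,
            (F j).int (fun x => ∑ i, w x i * f (T x i).1 - f x.1) := by
        rw [← hsum]
        refine Finset.sum_congr rfl fun a _ => ?_
        rw [hWf a f]
      have h2 : ∀ j, (F j).int (fun x => ∑ i, w x i * f (T x i).1 - f x.1) =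
          (F (j + 1)).int (fun x => f x.1) - (F j).int (fun x => f x.1) := by
        intro j
        rw [int_sub]
        congr 1
        exact ((F j).step_int N w T (fun x => f x.1)).symm
      rw [h1, Finset.sum_congr rfl fun j _ => h2 j,
        Finset.sum_range_sub (fun j => (F j).int (fun x => f x.1)) L]
      have h3 := fam_abs N w T ⟨t0, ht0⟩ hw0 hw1 L (fun x => f x.1) fun x => hf x.1 x.2
      have h4 := fam_abs N w T ⟨t0, ht0⟩ hw0 hw1 0 (fun x => f x.1) fun x => hf x.1 x.2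
      rw [abs_mul, abs_of_nonneg (by positivity : (0 : ℝ) ≤ 1 / (L : ℝ))]
      have h5 : |(F L).int (fun x => f x.1) - (F 0).int (fun x => f x.1)| ≤ 2 := by
        rw [abs_le] at h3 h4 ⊢
        constructor
        · linarith [h3.1, h4.2]
        · linarith [h3.2, h4.1]
      calc 1 / (L : ℝ) * |(F L).int (fun x => f x.1) - (F 0).int (fun x => f x.1)|
          ≤ 1 / (L : ℝ) * 2 := mul_le_mul_of_nonneg_left h5 (by positivity)
        _ = 2 / (L : ℝ) := by ring
        _ ≤ d := hLd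
  · exact fun a i => (hW a).pt i

end Pool.Agent.PJC.H56
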